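import Pool.Agent.V7H12.PW.Defs

/-!
# Weak admissibility: the slope operator and the monodromy operator come from `H²`
-/

set_option autoImplicit false

namespace Pool.Agent.V7H12.PW

open Module Module.End Polynomial
open Pool.Agent.N184.HK Pool.Agent.Y143
open scoped Classical

section lin

variable {K H : Type} [Field K] [AddCommGroup H] [Module K H]

/-- The projection to the generalized eigenspace of `T` for `x`. -/
noncomputable def pr [IsAlgClosed K] [FiniteDimensional K H] (T : Module.End K H) (x : K) :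
    Module.End K H :=
  fop T (fun y => if y = x then 1 else 0)

lemma pr_spec [IsAlgClosed K] [CharZero K] [FiniteDimensional K H] {T : Module.End K H} {x : K}
    (hx : x ∈ T.charpoly.roots) : ∃ n : ℕ, 0 < n ∧ pr T x * pr T x = pr T x ∧
      (∀ U, Commute U T → Commute U (pr T x)) ∧
      LinearMap.trace K H (pr T x) = n ∧ LinearMap.trace K H (T * pr T x) = x * n := by
  set z := pr T x with hz
  rw [pr] at hz
  have hzb : ∀ U, Commute U T → Commute U z := fun U hU => fop_comm hU _
  have hzz : z * z = z := by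
    rw [hz, fop_mul]
    congr 1
    ext y
    by_cases h : y = x <;> simp [h]
  have h2 : LinearMap.trace K H (T * z) = x * LinearMap.trace K H z := by
    have h3 : T * z = x • z + (T - fop T (fun y => y)) * z := by
      rw [sub_mul]
      have : fop T (fun y => y) * z = x • z := by
        rw [hz, fop_mul]
        refine ext_gen T fun e y hy => ?_
        rw [fop_apply _ hy, LinearMap.smul_apply, fop_apply _ hy, smul_smul]
        by_cases h : e = x <;> simp [h]
      rw [this]; abel
    have h4 : IsNilpotent ((T - fop T (fun y => y)) * z) := by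
      refine Commute.isNilpotent_mul_right ?_ (nil_part T)
      exact (hzb T (Commute.refl T)).sub_left (hzb _ (self_comm_fop T _).symm)
    rw [h3, map_add, tr_nil h4, add_zero, map_smul, smul_eq_mul]
  obtain ⟨n, hn⟩ := tr_idem hzz
  have hn0 : n ≠ 0 := by
    intro h0
    rw [h0, Nat.cast_zero] at hn
    rw [hz, tr_fop] at hn
    have h5 : (T.charpoly.roots.map (fun y => if y = x then (1 : K) else 0)).sum =
        (T.charpoly.roots.count x : K) := by
      induction T.charpoly.roots using Multiset.induction_on with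
      | empty => simp
      | cons a s ih =>
        rw [Multiset.map_cons, Multiset.sum_cons, ih, Multiset.count_cons]
        by_cases h : a = x
        · subst h; simp [add_comm]
        · simp [h, Ne.symm h]
    rw [h5] at hn
    have := Nat.cast_eq_zero.1 hn
    exact (Multiset.count_pos.2 hx).ne' this
  exact ⟨n, Nat.pos_of_ne_zero hn0, hzz, hzb, hn, by rw [h2, hn]⟩

/-- An operator `a` with `[T, a] = -a` lowers the generalized eigenvalues of `T` by one. -/
lemma lower {T a : Module.End K H} (h : T * a - a * T = -a) {e : K} {y : H}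
    (hy : y ∈ T.maxGenEigenspace e) : a y ∈ T.maxGenEigenspace (e - 1) := by
  rw [Module.End.mem_maxGenEigenspace] at hy ⊢
  obtain ⟨k, hk⟩ := hy
  refine ⟨k, ?_⟩
  have h1 : SemiconjBy a (T - e • 1) (T - (e - 1) • 1) := by
    change a * (T - e • 1) = (T - (e - 1) • 1) * a
    have h2 : T * a = a * T - a := by
      rw [sub_eq_iff_eq_add] at h
      rw [h]; abel
    rw [mul_sub, sub_mul, h2, mul_smul_comm, mul_one, smul_mul_assoc, one_mul, sub_smul, one_smul]
    abel
  have h3 := (h1.pow_right k).eq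
  have h4 := congrArg (fun f : Module.End K H => f y) h3
  change a (((T - e • 1) ^ k) y) = ((T - (e - 1) • 1) ^ k) (a y) at h4
  rw [← h4, hk, map_zero]

/-- If `e` is a root and `e - 1` is not, then `a` vanishes on the generalized eigenspace for `e`. -/
lemma lower_pr [IsAlgClosed K] [FiniteDimensional K H] {T a : Module.End K H}
    (h : T * a - a * T = -a) {e : K} (he : e - 1 ∉ T.charpoly.roots) : a * pr T e = 0 := by
  refine ext_gen T fun x y hy => ?_
  rw [Module.End.mul_apply, pr, fop_apply _ hy, LinearMap.zero_apply]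
  by_cases hx : x = e
  · subst hx
    rw [if_pos rfl, one_smul]
    have h1 := lower h hy
    have h2 : T.maxGenEigenspace (x - 1) = ⊥ := by
      by_contra h3
      exact he (ne_bot_iff.1 h3)
    rw [h2, Submodule.mem_bot] at h1
    exact h1
  · rw [if_neg hx, zero_smul, map_zero]

end lin

section

variable {q : ℕ} (X : HyodoKato q)

/-- The slopes. -/
noncomputable def HyodoKato.W : Wt X.C where
  U x := x ≠ 0
  ne _ h := h
  mul _ _ := mul_ne_zero
  inv _ := inv_ne_zero
  w x := (X.val x).untopD 0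
  w_mul _ _ hx hy := val_untop_mul X.val hx hy

lemma HyodoKato.root_U (i : ℕ) : ∀ e ∈ (en (X.F.φ i)).charpoly.roots, X.W.U e :=
  fun _ he => root_ne he

lemma HyodoKato.q_ne : (q : X.C) ≠ 0 := by
  intro h
  have h1 := X.norm
  rw [h, AddValuation.map_zero] at h1
  exact absurd h1.symm (WithTop.coe_ne_top (a := (1 : ℚ)))

lemma HyodoKato.w_q : X.W.w (q : X.C) = 1 := by
  change (X.val (q : X.C)).untopD 0 = 1
  rw [X.norm]
  rfl

lemma HyodoKato.w_qinv : X.W.w (q : X.C)⁻¹ = -1 := by
  have h := X.W.w_mul _ _ X.q_ne (inv_ne_zero X.q_ne)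
  have h1 : X.W.w (1 : X.C) = 0 := by
    have := X.W.w_mul 1 1 one_ne_zero one_ne_zero
    rw [mul_one] at this
    linarith
  rw [mul_inv_cancel₀ X.q_ne, h1, X.w_q] at h
  linarith

/-- The difference of `N` and its expected value. -/
noncomputable def HyodoKato.a (i : ℕ) : Module.End X.C (X.D.H i) :=
  X.M.N i - X.D.ρ i (X.M.N 2)

lemma HyodoKato.a_cen {i : ℕ} (hi : i ≤ X.d) : X.a i ∈ cen X.D i := by
  intro A hA
  have h1 := X.M.compat i hi A hA
  have h2 := X.D.bracket i (X.M.N 2) A X.M.skew hA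
  rw [h2] at h1
  change X.D.ρ i A * X.a i = X.a i * X.D.ρ i A
  rw [HyodoKato.a, mul_sub, sub_mul]
  have h3 : X.M.N i * X.D.ρ i A - X.D.ρ i (X.M.N 2) * X.D.ρ i A =
      X.D.ρ i A * X.M.N i - X.D.ρ i A * X.D.ρ i (X.M.N 2) := by
    have := h1
    rw [sub_eq_sub_iff_add_eq_add] at this ⊢
    rw [this]
    abel
  exact h3.symm

lemma adE_tw {Ω V : Type} [Field Ω] [AddCommGroup V] [Module Ω V] (φ : V ≃ₗ[Ω] V)
    {N : Module.End Ω V} {q : Ω} (hq : q ≠ 0) (h : ∀ x, N (en φ x) = q • en φ (N x)) :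
    adE φ N = q⁻¹ • N := by
  ext x
  have h1 : adE φ N x = φ (N (φ.symm x)) := by simp [adE, LinearEquiv.conj_apply]
  have h2 := h (φ.symm x)
  have h3 : en φ (φ.symm x) = x := φ.apply_symm_apply x
  rw [h3] at h2
  rw [h1, LinearMap.smul_apply, h2, smul_smul, inv_mul_cancel₀ hq, one_smul]
  rfl

lemma HyodoKato.a_eig {i : ℕ} (hi : i ≤ X.d) :
    X.a i ∈ (adE (X.F.φ i)).maxGenEigenspace (q : X.C)⁻¹ := by
  have had : adE (X.F.φ i) (X.a i) = (q : X.C)⁻¹ • X.a i := by
    rw [HyodoKato.a, map_sub, adE_tw _ X.q_ne (X.M.twist i hi), X.F.hc,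
      adE_tw _ X.q_ne (X.M.twist 2 X.two_le), map_smul, smul_sub]
  rw [Module.End.mem_maxGenEigenspace]
  refine ⟨1, ?_⟩
  rw [pow_one, LinearMap.sub_apply, had]
  exact sub_self _

lemma HyodoKato.T_a {i : ℕ} (hi : i ≤ X.d) :
    X.F.T X.W i (i / 2) * X.a i - X.a i * X.F.T X.W i (i / 2) = -X.a i := by
  rw [T_ad (X.root_U 2) (X.root_U i) (i / 2) (X.a_cen hi) (X.a_eig hi), Wt.k, X.w_qinv]
  simp

/-- Weak admissibility: the operator `T` is nilpotent. -/
lemma HyodoKato.nil {i : ℕ} (hi : i ≤ X.d) : IsNilpotent (X.F.T X.W i (i / 2)) := by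
  set T := X.F.T X.W i (i / 2) with hT
  have hS : fop (en (X.F.φ i)) (fun e => ((X.W.w e - i / 2 : ℚ) : X.C)) =
      X.D.ρ i (X.F.S2 X.W) + T := by
    rw [hT, Cohomology.Auto.T]; abel
  have hTφ : Commute T (en (X.F.φ i)) := T_comm_φ i _
  have hs2 : Skew X.D.q (X.F.S2 X.W) := skew_S2 (X.root_U 2)
  have hTρ : ∀ A, Skew X.D.q A → Commute (X.D.ρ i A) T := fun A hA =>
    T_comm (X.root_U 2) (X.root_U i) _ hA
  have hR : ∀ z : Module.End X.C (X.D.H i), (∀ U, Commute U T → Commute U z) →
      LinearMap.trace X.C (X.D.H i) (X.D.ρ i (X.F.S2 X.W) * z) = 0 := fun z hz =>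
    tr_rho_mul hs2 fun B hB => hz _ (hTρ B hB)
  -- the value of the trace of `T z`
  have key : ∀ z : Module.End X.C (X.D.H i), z * z = z → (∀ U, Commute U T → Commute U z) →
      z * X.a i * z = X.a i * z →
      ∃ r : ℚ, 0 ≤ r ∧ LinearMap.trace X.C (X.D.H i) (T * z) = r ∧ (z = 1 → r = 0) := by
    intro z hz hz2 haz
    have hρN := hz2 _ (hTρ _ X.M.skew)
    have hNz : z * X.M.N i * z = X.M.N i * z := by
      have h1 : X.M.N i = X.D.ρ i (X.M.N 2) + X.a i := by rw [HyodoKato.a]; abel
      rw [h1, mul_add, add_mul, add_mul, haz, ← hρN.eq, mul_assoc, hz]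
    obtain ⟨r, hr0, hr, hr1⟩ := X.adm i hi z hz (hz2 _ hTφ.symm).symm hNz
      (fun A hA => hz2 _ (hTρ A hA))
    refine ⟨r, hr0, ?_, hr1⟩
    have h1 : fop (en (X.F.φ i)) (slope X.val) = (((i / 2 : ℚ) : X.C) • 1 +
        X.D.ρ i (X.F.S2 X.W)) + T := by
      have h2 : (fun e => ((X.W.w e - i / 2 : ℚ) : X.C)) =
          fun e => slope X.val e - ((i / 2 : ℚ) : X.C) := by
        ext e
        rw [Rat.cast_sub]
        rfl
      rw [h2, fop_sub, fop_const] at hS
      rw [add_assoc, ← hS]
      abel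
    have hH : ∀ s, hodgeNumber X.D (X.J s) i z = ((i / 2 : ℚ) : X.C) * trm 1 z := by
      intro s
      rw [hodgeNumber, trm, tr_rho_mul (X.skew s) (fun A hA => hz2 _ (hTρ A hA)), zero_add]
    have hS0 : (Fintype.card X.S : X.C) ≠ 0 := by
      exact_mod_cast Fintype.card_ne_zero
    have hM : meanHodge X.D X.J i z = ((i / 2 : ℚ) : X.C) * trm 1 z := by
      rw [meanHodge, Finset.sum_congr rfl fun s _ => hH s, Finset.sum_const, Finset.card_univ,
        nsmul_eq_mul, mul_div_assoc, mul_comm, div_mul_cancel₀ _ hS0]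
    rw [hM, newtonNumber, trm, trm, h1, add_mul, add_mul, map_add, map_add,
      hR z hz2, smul_mul_assoc, map_smul, smul_eq_mul] at hr
    rw [add_zero] at hr
    exact add_left_cancel hr
  -- the roots of `T` are rational
  have hrat : ∃ s : Multiset ℚ, T.charpoly.roots = s.map (fun r : ℚ => (r : X.C)) := by
    have h1 : ∀ x ∈ T.charpoly.roots, ∃ r : ℚ, (r : X.C) = x := fun x hx => rat_eig hS hTφ hR hx
    generalize T.charpoly.roots = m at h1
    induction m using Multiset.induction_on with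
    | empty => exact ⟨0, rfl⟩
    | cons a s ih =>
      obtain ⟨r, hr⟩ := h1 a (Multiset.mem_cons_self a s)
      obtain ⟨t, ht⟩ := ih fun x hx => h1 x (Multiset.mem_cons_of_mem hx)
      exact ⟨r ::ₘ t, by rw [Multiset.map_cons, hr, ht]⟩
  obtain ⟨s, hs⟩ := hrat
  have hpos : ∀ r ∈ s, 0 ≤ r := by
    intro r hr
    -- the smallest root
    have hne : s.toFinset.Nonempty := ⟨r, Multiset.mem_toFinset.2 hr⟩
    set m := s.toFinset.min' hne with hm
    have hms : m ∈ s := Multiset.mem_toFinset.1 (Finset.min'_mem _ hne)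
    have hmr : m ≤ r := Finset.min'_le _ _ (Multiset.mem_toFinset.2 hr)
    have hm1 : m - 1 ∉ s := by
      intro h
      have := Finset.min'_le _ _ (Multiset.mem_toFinset.2 h)
      rw [← hm] at this
      linarith
    have hroot : (m : X.C) ∈ T.charpoly.roots := by
      rw [hs]; exact Multiset.mem_map_of_mem _ hms
    have hroot1 : (m : X.C) - 1 ∉ T.charpoly.roots := by
      rw [hs]
      intro h
      obtain ⟨t, ht, hte⟩ := Multiset.mem_map.1 h
      have : t = m - 1 := by
        have h2 : ((t : ℚ) : X.C) = ((m - 1 : ℚ) : X.C) := by rw [hte]; push_cast; ring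
        exact Rat.cast_injective h2
      rw [this] at ht
      exact hm1 ht
    obtain ⟨n, hn, hzz, hz, htz, htTz⟩ := pr_spec hroot
    have ha0 : X.a i * pr T (m : X.C) = 0 := lower_pr (X.T_a hi) hroot1
    obtain ⟨r', hr0, hr', -⟩ := key _ hzz hz (by rw [mul_assoc, ha0, mul_zero])
    rw [htTz] at hr'
    have h3 : m * n = r' := by
      have h4 : ((m * n : ℚ) : X.C) = ((r' : ℚ) : X.C) := by
        rw [← hr']; push_cast; ring
      exact Rat.cast_injective h4
    have hn' : (0 : ℚ) < n := by exact_mod_cast hn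
    have h5 : 0 ≤ m * n := h3 ▸ hr0
    have h6 : 0 ≤ m := by
      by_contra h7
      push Not at h7
      have := mul_neg_of_neg_of_pos h7 hn'
      linarith
    linarith
  refine nil_of_nonneg (fun x hx => ?_) ?_
  · rw [hs] at hx
    obtain ⟨r, hr, rfl⟩ := Multiset.mem_map.1 hx
    exact ⟨r, hpos r hr, rfl⟩
  · obtain ⟨r, -, hr, hr1⟩ := key 1 (one_mul 1) (fun U _ => Commute.one_right U)
      (by rw [one_mul])
    rw [mul_one, hr1 rfl, Rat.cast_zero] at hr
    exact hr

/-- The monodromy operator on `H^i` comes from `H²`. -/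
lemma HyodoKato.N_eq {i : ℕ} (hi : i ≤ X.d) : X.M.N i = X.D.ρ i (X.M.N 2) := by
  by_contra hne
  have ha0 : X.a i ≠ 0 := fun h => hne (sub_eq_zero.1 h)
  have h1 : X.F.T X.W i (i / 2) * X.a i - X.a i * X.F.T X.W i (i / 2) = (-1 : X.C) • X.a i := by
    rw [X.T_a hi, neg_one_smul]
  have h2 := ad_nil (X.nil hi) ha0 h1
  exact absurd h2 (by norm_num)

end

end Pool.Agent.V7H12.PW
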