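import Pool.Agent.N184.HK.W7

/-!
# The Hyodo-Kato cohomology of a projective hyperkähler variety over a `p`-adic field
-/

set_option autoImplicit false

namespace Pool.Agent.V7H12.PW

open Module Module.End Polynomial
open Pool.Agent.N184.HK Pool.Agent.Y143

/-- The mean over the embeddings `s` of the Hodge numbers of the image of the idempotent `z`, for the
filtrations given by the elements `J s`. -/
noncomputable def meanHodge {C : Type} [Field C] [CharZero C] [IsAlgClosed C] {d : ℕ} {c : ℚ}
    (D : Cohomology C d c) {S : Type} [Fintype S] (J : S → Module.End C (D.H 2)) (i : ℕ)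
    (z : Module.End C (D.H i)) : C :=
  (∑ s, hodgeNumber D (J s) i z) / (Fintype.card S : C)

/-- Multiplicativity up to the factor `m`: the form `B` satisfies `B (f x, f y) = m B (x, y)`. -/
def Scales {C V : Type} [Field C] [AddCommGroup V] [Module C V] (B : LinearMap.BilinForm C V)
    (f : V ≃ₗ[C] V) (m : C) : Prop :=
  B.Nondegenerate ∧ ∀ x y, B (f x) (f y) = m * B x y

/-- The Hyodo-Kato cohomology of a projective hyperkähler variety `X` of dimension `d / 2` over a
finite extension `K` of `ℚ_p` whose residue field has `q` elements, for which all `H^i` are semistable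
(as is the case after a finite extension of `K`). Let `K₀` be the maximal unramified subfield and `C`
an algebraic closure of it.

* `D` is the cohomology `H^i_HK(X) ⊗ C`, with the form `q` on `H²` and the action of `so(H²)`;
* `F` is the linear Frobenius `φ^f`, where `q = p^f`, and `M` contains the monodromy operators `N`
  (with `N F = q F N`), the fact that the eigenvalues of `F` are Weil numbers (Mokrane, de Jong) and
  the weight-monodromy conjecture for `H²` (Mokrane, de Jong);
* `pairing`: `H^i` is isomorphic to its dual up to a Tate twist (Poincaré duality and the hard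
  Lefschetz theorem);
* `val` is the `p`-adic valuation with `val q = 1`, so that the valuation of an eigenvalue of `F` is
  its slope;
* `S` is the finite set of the embeddings of `K` in `C`; for `s` in `S` the Hodge filtration on `H^i`
  is the filtration by the eigenvalues of `ρ i (J s) + i / 2`, for an element `J s` of `so(H²)`
  (for an embedding which is not the given one on `K₀` one uses a power of `φ` to transport it);
* `adm`: `H^i` is weakly admissible (Fontaine, Tsuji): for a subspace which is stable for `F` and for
  `N` the Newton number is at least the mean of the Hodge numbers, with equality for `H^i`. Only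
  subspaces which are direct summands for `F` and for the action of `so(H²)` are needed; they are
  given as images of idempotents `z`. -/
structure HyodoKato (q : ℕ) where
  d : ℕ
  two_le : 2 ≤ d
  c : ℚ
  C : Type
  [field : Field C]
  [closed : IsAlgClosed C]
  [char : CharZero C]
  D : Cohomology C d c
  F : D.Auto
  M : Monodromy F q
  pairing : ∀ i ≤ d, ∃ B : LinearMap.BilinForm C (D.H i), Scales B (F.φ i) ((q : C) ^ i)
  val : AddValuation C (WithTop ℚ)
  norm : val (q : C) = 1
  S : Type
  [finite : Fintype S]
  [nonempty : Nonempty S]
  J : S → Module.End C (D.H 2)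
  skew : ∀ s, Skew D.q (J s)
  adm : ∀ i ≤ d, ∀ z : Module.End C (D.H i), z * z = z → Commute z (en (F.φ i)) →
    z * M.N i * z = M.N i * z → (∀ A, Skew D.q A → Commute (D.ρ i A) z) →
    ∃ r : ℚ, 0 ≤ r ∧ newtonNumber F val i z = meanHodge D J i z + r ∧ (z = 1 → r = 0)

attribute [instance] HyodoKato.field HyodoKato.closed HyodoKato.char HyodoKato.finite
  HyodoKato.nonempty

/-- The characteristic polynomial of the Frobenius on `H^i`. -/
noncomputable def HyodoKato.P {q : ℕ} (X : HyodoKato q) (i : ℕ) : X.C[X] :=
  (en (X.F.φ i)).charpoly

/-- The polynomial `P` has rational coefficients. -/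
def RationalPoly {C : Type} [Field C] [CharZero C] (P : C[X]) : Prop :=
  ∃ R : ℚ[X], R.map (algebraMap ℚ C) = P

/-- The weight-monodromy conjecture for `H^i_HK(X)`: the eigenvalues of the Frobenius on the graded
piece `a` of the monodromy filtration are Weil numbers of weight `i + a`. -/
def HyodoKato.IsPure {q : ℕ} (X : HyodoKato q) (i : ℕ) : Prop :=
  IsMWPure q i (en (X.F.φ i)) (X.M.N i)

/-- The monodromy operator on `H^i` is given by the one on `H²` and the action of `so(H²)`. -/
def HyodoKato.MonodromyFromH2 {q : ℕ} (X : HyodoKato q) (i : ℕ) : Prop :=
  X.M.N i = X.D.ρ i (X.M.N 2)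

end Pool.Agent.V7H12.PW
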