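import Pool.Agent.V7H12.PW.Adm

/-!
# The valuations given by the embeddings of a number field
-/

set_option autoImplicit false

namespace Pool.Agent.V7H12.PW

open Module Module.End Polynomial
open Pool.Agent.N184.HK Pool.Agent.Y143
open scoped Classical

section emb

variable {C : Type} [Field C] [CharZero C] (val : AddValuation C (WithTop ℚ))
  (E : IntermediateField ℚ C)

/-- The valuation given by the embedding `ι` of `E`. -/
noncomputable def WE (ι : E →ₐ[ℚ] C) : Wt C where
  U x := x ∈ E ∧ x ≠ 0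
  ne _ h := h.2
  mul _ _ hx hy := ⟨E.mul_mem hx.1 hy.1, mul_ne_zero hx.2 hy.2⟩
  inv _ hx := ⟨E.inv_mem hx.1, inv_ne_zero hx.2⟩
  w x := if h : x ∈ E then (val (ι ⟨x, h⟩)).untopD 0 else 0
  w_mul x y hx hy := by
    have hx' : ι ⟨x, hx.1⟩ ≠ 0 := by
      rw [_root_.map_ne_zero]
      exact fun h => hx.2 (congrArg Subtype.val h)
    have hy' : ι ⟨y, hy.1⟩ ≠ 0 := by
      rw [_root_.map_ne_zero]
      exact fun h => hy.2 (congrArg Subtype.val h)
    rw [dif_pos hx.1, dif_pos hy.1, dif_pos (E.mul_mem hx.1 hy.1), ← val_untop_mul val hx' hy',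
      ← map_mul]
    rfl

lemma WE_w (ι : E →ₐ[ℚ] C) (y : E) : (WE val E ι).w (y : C) = (val (ι y)).untopD 0 := by
  change (if h : (y : C) ∈ E then (val (ι ⟨y, h⟩)).untopD 0 else 0) = _
  rw [dif_pos y.2]

lemma WE_q (ι : E →ₐ[ℚ] C) {q : ℕ} (hq : val (q : C) = 1) :
    (WE val E ι).U (q : C) ∧ (WE val E ι).w (q : C) = 1 := by
  have h0 : (q : C) ≠ 0 := by
    intro h
    rw [h, AddValuation.map_zero] at hq
    exact absurd hq.symm (WithTop.coe_ne_top (a := (1 : ℚ)))
  have h1 : ((q : E) : C) = (q : C) := by simp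
  refine ⟨⟨h1 ▸ (q : E).2, h0⟩, ?_⟩
  rw [← h1, WE_w, map_natCast, hq]
  rfl

/-- The multiset of the slopes of the roots of a rational polynomial does not depend on the
embedding. -/
lemma roots_w [IsAlgClosed C] {R : ℚ[X]}
    (hR : ∀ x ∈ (R.map (algebraMap ℚ C)).roots, x ∈ E) (ι : E →ₐ[ℚ] C) :
    (R.map (algebraMap ℚ C)).roots.map (WE val E ι).w =
      (R.map (algebraMap ℚ C)).roots.map (fun x => (val x).untopD 0) := by
  have hs : (R.map (algebraMap ℚ E)).Splits := by
    refine IntermediateField.splits_of_splits (IsAlgClosed.splits _) fun x hx => hR x ?_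
    rw [Polynomial.mem_rootSet] at hx
    rw [Polynomial.mem_roots', Polynomial.IsRoot.def, Polynomial.eval_map_algebraMap]
    exact ⟨(Polynomial.map_ne_zero_iff (algebraMap ℚ C).injective).2 hx.1, hx.2⟩
  have h1 : (R.map (algebraMap ℚ E)).map (algebraMap E C) = R.map (algebraMap ℚ C) := by
    rw [Polynomial.map_map, ← IsScalarTower.algebraMap_eq]
  have h2 : (R.map (algebraMap ℚ E)).map (ι : E →+* C) = R.map (algebraMap ℚ C) := by
    rw [Polynomial.map_map]
    congr 1
    exact ι.comp_algebraMap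
  have h3 := hs.roots_map (algebraMap E C)
  have h4 := hs.roots_map (ι : E →+* C)
  rw [h1] at h3
  rw [h2] at h4
  conv_lhs => rw [h3]
  conv_rhs => rw [h4]
  rw [Multiset.map_map, Multiset.map_map]
  refine Multiset.map_congr rfl fun y _ => ?_
  exact WE_w val E ι y

end emb

section norm

variable {C : Type} [Field C] [CharZero C] [IsAlgClosed C] (val : AddValuation C (WithTop ℚ))
  (E : IntermediateField ℚ C) [FiniteDimensional ℚ E]

lemma val_untop_prod {ι : Type} (s : Finset ι) (f : ι → C) (hf : ∀ i ∈ s, f i ≠ 0) :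
    (val (∏ i ∈ s, f i)).untopD 0 = ∑ i ∈ s, (val (f i)).untopD 0 := by
  induction s using Finset.induction_on with
  | empty =>
    rw [Finset.prod_empty, Finset.sum_empty]
    have := val_untop_mul val (one_ne_zero (α := C)) one_ne_zero
    rw [mul_one] at this
    linarith
  | insert a s ha ih =>
    rw [Finset.prod_insert ha, Finset.sum_insert ha, val_untop_mul val (hf a (by simp)),
      ih fun i hi => hf i (Finset.mem_insert_of_mem hi)]
    exact Finset.prod_ne_zero_iff.2 fun i hi => hf i (Finset.mem_insert_of_mem hi)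

/-- The mean of the valuations of a Weil number is half of its weight. -/
lemma mean_weil {q : ℕ} (hq : 1 < q) (hv : val (q : C) = 1) {w : ℤ} {y : C} (hyE : y ∈ E)
    (hy0 : y ≠ 0) (hy : IsWeilNumber q w y) :
    ∑ ι : E →ₐ[ℚ] C, (WE val E ι).w y = (finrank ℚ E : ℚ) * ((w : ℚ) / 2) := by
  set z : E := ⟨y, hyE⟩ with hz
  have hz0 : z ≠ 0 := fun h => hy0 (congrArg Subtype.val h)
  set n := Algebra.norm ℚ z with hn
  have hn0 : n ≠ 0 := by
    rw [hn]; exact (Algebra.norm_ne_zero_iff).2 hz0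
  -- the absolute value of the norm
  have hmin : minpoly ℚ y = minpoly ℚ z :=
    (minpoly.algebraMap_eq (algebraMap E C).injective z)
  have habs : (|n| : ℝ) ^ 2 = ((q : ℝ) ^ w) ^ (finrank ℚ E) := by
    have h1 := Algebra.norm_eq_prod_embeddings ℚ ℂ z
    have h2 : ∀ τ : E →ₐ[ℚ] ℂ, ‖τ z‖ = (q : ℝ) ^ ((w : ℝ) / 2) := by
      intro τ
      refine hy.2 (τ z) ?_
      rw [hmin, Polynomial.aeval_algHom_apply, minpoly.aeval, map_zero]
    have h3 : ‖(algebraMap ℚ ℂ) n‖ = ((q : ℝ) ^ ((w : ℝ) / 2)) ^ (finrank ℚ E) := by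
      rw [hn, h1, norm_prod, Finset.prod_congr rfl fun τ _ => h2 τ, Finset.prod_const,
        Finset.card_univ, AlgHom.card]
    have h4 : ‖(algebraMap ℚ ℂ) n‖ = (|n| : ℝ) := by
      rw [eq_ratCast, Complex.norm_ratCast]
    rw [h4] at h3
    rw [h3, ← pow_mul, mul_comm (finrank ℚ E) 2, pow_mul]
    congr 1
    rw [← Real.rpow_natCast, ← Real.rpow_mul (by positivity)]
    rw [← Real.rpow_intCast]
    congr 1
    push_cast
    ring
  have hsq : n ^ 2 = ((q : ℚ) ^ w) ^ (finrank ℚ E) := by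
    rw [sq_abs] at habs
    have h1 : ((n ^ 2 : ℚ) : ℝ) = ((((q : ℚ) ^ w) ^ (finrank ℚ E) : ℚ) : ℝ) := by
      rw [Rat.cast_pow, habs, Rat.cast_pow, Rat.cast_zpow, Rat.cast_natCast]
    exact Rat.cast_injective h1
  -- the valuation of the norm
  have hq0 : (q : C) ≠ 0 := by
    have : q ≠ 0 := by omega
    exact_mod_cast this
  have h5 := Algebra.norm_eq_prod_embeddings ℚ C z
  have h6 : ∑ ι : E →ₐ[ℚ] C, (WE val E ι).w y = (val ((n : ℚ) : C)).untopD 0 := by
    rw [← hn, eq_ratCast] at h5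
    rw [h5, val_untop_prod val _ _ fun ι _ => (map_ne_zero ι).2 hz0]
    exact Finset.sum_congr rfl fun ι _ => WE_w val E ι z
  rw [h6]
  have hnC : ((n : ℚ) : C) ≠ 0 := by exact_mod_cast hn0
  have h7 : (val (((n : ℚ) : C) ^ 2)).untopD 0 = 2 * (val ((n : ℚ) : C)).untopD 0 := by
    rw [pow_two, val_untop_mul val hnC hnC]; ring
  have h8 : ((n : ℚ) : C) ^ 2 = ((q : C) ^ w) ^ (finrank ℚ E) := by
    have h1 := congrArg (fun x : ℚ => (x : C)) hsq
    simp only [Rat.cast_pow, Rat.cast_zpow, Rat.cast_natCast] at h1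
    exact h1
  have hpow : ∀ (x : C), x ≠ 0 → ∀ k : ℕ, (val (x ^ k)).untopD 0 = k * (val x).untopD 0 := by
    intro x hx k
    induction k with
    | zero =>
      have := val_untop_mul val (one_ne_zero (α := C)) one_ne_zero
      rw [mul_one] at this
      rw [pow_zero]
      push_cast
      linarith
    | succ k ih =>
      rw [pow_succ, val_untop_mul val (pow_ne_zero k hx) hx, ih]
      push_cast
      ring
  have hvq : (val (q : C)).untopD 0 = 1 := by rw [hv]; rfl
  have h9 : (val ((q : C) ^ w)).untopD 0 = w := by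
    rcases w with k | k
    · rw [Int.ofNat_eq_natCast, zpow_natCast, hpow _ hq0, hvq]
      push_cast; ring
    · rw [zpow_negSucc]
      have h10 := val_untop_mul val (pow_ne_zero (k + 1) hq0) (inv_ne_zero (pow_ne_zero (k + 1) hq0))
      rw [mul_inv_cancel₀ (pow_ne_zero (k + 1) hq0), hpow _ hq0, hvq] at h10
      have h11 := hpow 1 one_ne_zero 0
      rw [pow_zero] at h11
      rw [h11] at h10
      rw [Int.cast_negSucc]
      push_cast at h10 ⊢
      linarith
  rw [h8, hpow _ (zpow_ne_zero _ hq0), h9] at h7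
  linarith

end norm

end Pool.Agent.V7H12.PW
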