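import Pool.Agent.V7H12.PW.Mom

/-!
# The `p`-adic weight-monodromy conjecture for hyperkähler varieties
-/

set_option autoImplicit false

namespace Pool.Agent.V7H12.PW

open Module Module.End Polynomial
open Pool.Agent.N184.HK Pool.Agent.Y143
open scoped Classical

section

variable {q : ℕ} (X : HyodoKato q)

lemma HyodoKato.weights' {i : ℕ} (hi : i ≤ X.d) : ∀ e ∈ (en (X.F.φ i)).charpoly.roots,
    ∃ w : ℤ, IsWeilNumber q w e := by
  intro e he
  refine X.M.weights i hi e ?_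
  rw [Polynomial.mem_roots (LinearMap.charpoly_monic _).ne_zero] at he
  exact (Module.End.hasEigenvalue_iff_isRoot_charpoly _ _).2 he

/-- The eigenvalues of the Frobenius on all the `H^i`. -/
noncomputable def HyodoKato.eigs : Set X.C :=
  {x | x ∈ (∏ i ∈ Finset.range (X.d + 1), X.P i).roots}

lemma HyodoKato.mem_eigs {x : X.C} : x ∈ X.eigs ↔ ∃ i ≤ X.d, x ∈ (X.P i).roots := by
  have h0 : ∀ i, X.P i ≠ 0 := fun i => (LinearMap.charpoly_monic _).ne_zero
  have h1 : (∏ i ∈ Finset.range (X.d + 1), X.P i) ≠ 0 := Finset.prod_ne_zero_iff.2 fun i _ => h0 i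
  change x ∈ (∏ i ∈ Finset.range (X.d + 1), X.P i).roots ↔ _
  rw [Polynomial.mem_roots h1, Polynomial.IsRoot.def, Polynomial.eval_prod,
    Finset.prod_eq_zero_iff]
  constructor
  · rintro ⟨i, hi, h⟩
    exact ⟨i, Nat.lt_succ_iff.1 (Finset.mem_range.1 hi), (Polynomial.mem_roots (h0 i)).2 h⟩
  · rintro ⟨i, hi, h⟩
    exact ⟨i, Finset.mem_range.2 (Nat.lt_succ_of_le hi), (Polynomial.mem_roots (h0 i)).1 h⟩

instance HyodoKato.finite_eigs : Finite X.eigs := by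
  refine Set.Finite.to_subtype (Set.Finite.subset
    (∏ i ∈ Finset.range (X.d + 1), X.P i).roots.toFinset.finite_toSet ?_)
  intro x hx
  exact Multiset.mem_toFinset.2 hx

/-- The number field generated by the Frobenius eigenvalues. -/
noncomputable def HyodoKato.E : IntermediateField ℚ X.C := IntermediateField.adjoin ℚ X.eigs

instance HyodoKato.finite_E : FiniteDimensional ℚ X.E := by
  refine IntermediateField.finiteDimensional_adjoin fun x hx => ?_
  obtain ⟨i, hi, h⟩ := X.mem_eigs.1 hx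
  obtain ⟨w, hw⟩ := X.weights' hi x h
  exact hw.1.isIntegral

lemma HyodoKato.mem_E {i : ℕ} (hi : i ≤ X.d) {x : X.C} (hx : x ∈ (X.P i).roots) : x ∈ X.E :=
  IntermediateField.subset_adjoin ℚ _ (X.mem_eigs.2 ⟨i, hi, hx⟩)

/-- The weight given by an embedding. -/
noncomputable def HyodoKato.Wι (ι : X.E →ₐ[ℚ] X.C) : Wt X.C := WE X.val X.E ι

lemma HyodoKato.good_ι (ι : X.E →ₐ[ℚ] X.C) : Good X (X.Wι ι) where
  one := ⟨X.E.one_mem, one_ne_zero⟩
  unit := (WE_q X.val X.E ι X.norm).1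
  root i hi e he := ⟨X.mem_E hi he, root_ne he⟩
  q_eq := (WE_q X.val X.E ι X.norm).2

lemma HyodoKato.nil_ι (h2 : RationalPoly (X.P 2))
    (hall : RationalPoly (∏ i ∈ Finset.range (X.d + 1), X.P i)) (ι : X.E →ₐ[ℚ] X.C) {i : ℕ}
    (hi : i ≤ X.d) : IsNilpotent (X.F.T (X.Wι ι) i (i / 2)) := by
  refine nil_of_same X (X.good_ι ι) ?_ ?_ hi
  · obtain ⟨R, hR⟩ := h2
    rw [← hR]
    exact roots_w X.val X.E (fun x hx => X.mem_E X.two_le (hR ▸ hx)) ι
  · obtain ⟨R, hR⟩ := hall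
    rw [← hR]
    refine roots_w X.val X.E (fun x hx => ?_) ι
    rw [hR] at hx
    exact IntermediateField.subset_adjoin ℚ _ hx

variable {X} {W : Wt X.C} (hWU : ∀ x, W.U x ↔ ∃ w : ℤ, IsWeilNumber q w x)
  (hWw : ∀ (w : ℤ) (x : X.C), IsWeilNumber q w x → W.w x = (w : ℚ))

include hWU in
lemma U_all {i : ℕ} (hi : i ≤ X.d) : ∀ e ∈ (en (X.F.φ i)).charpoly.roots, W.U e :=
  fun e he => (hWU e).2 (X.weights' hi e he)

include hWw in
/-- The weight operator is twice the mean of the slope operators for all embeddings. -/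
lemma fop_mean (hq : 1 < q) {i : ℕ} (hi : i ≤ X.d) :
    ∑ ι : X.E →ₐ[ℚ] X.C, fop (en (X.F.φ i)) (X.Wι ι).k =
      ((finrank ℚ X.E / 2 : ℚ) : X.C) • fop (en (X.F.φ i)) W.k := by
  refine ext_gen (en (X.F.φ i)) fun e x hx => ?_
  rw [LinearMap.sum_apply, LinearMap.smul_apply, fop_apply _ hx,
    Finset.sum_congr rfl fun ι _ => fop_apply (X.Wι ι).k hx, ← Finset.sum_smul, smul_smul]
  by_cases h0 : (en (X.F.φ i)).maxGenEigenspace e = ⊥
  · rw [h0, Submodule.mem_bot] at hx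
    rw [hx, smul_zero, smul_zero]
  have he := ne_bot_iff.1 h0
  obtain ⟨w, hw⟩ := X.weights' hi e he
  have h1 := mean_weil X.val X.E hq X.norm (X.mem_E hi he) (root_ne he) hw
  congr 1
  have h2 : ∑ ι : X.E →ₐ[ℚ] X.C, (X.Wι ι).k e =
      ((∑ ι : X.E →ₐ[ℚ] X.C, (X.Wι ι).w e : ℚ) : X.C) := by
    rw [Rat.cast_sum]
    rfl
  have h3 : ∑ ι : X.E →ₐ[ℚ] X.C, (X.Wι ι).w e = (finrank ℚ X.E : ℚ) * ((w : ℚ) / 2) := h1
  rw [h2, h3, Wt.k, hWw w e hw, ← Rat.cast_mul]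
  congr 1
  ring

lemma T_commT {W W' : Wt X.C} (h2 : ∀ e ∈ (en (X.F.φ 2)).charpoly.roots, W.U e)
    (h2' : ∀ e ∈ (en (X.F.φ 2)).charpoly.roots, W'.U e) {i : ℕ}
    (hi : ∀ e ∈ (en (X.F.φ i)).charpoly.roots, W.U e) (κ κ' : ℚ) :
    Commute (X.F.T W i κ) (X.F.T W' i κ') := by
  rw [T_eq (W := W')]
  refine ((fop_comm (T_comm_φ i κ) _).sub_right ((Commute.one_right _).smul_right _)).sub_right ?_
  exact (T_comm h2 hi κ (skew_S2 h2')).symm

include hWU hWw in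
/-- The weight operator: `T` is nilpotent. -/
lemma wt_nil (hq : 1 < q) (h2 : RationalPoly (X.P 2))
    (hall : RationalPoly (∏ i ∈ Finset.range (X.d + 1), X.P i)) {i : ℕ} (hi : i ≤ X.d) :
    IsNilpotent (X.F.T W i i) := by
  have hqW : IsWeilNumber q 2 (q : X.C) := by
    refine ⟨isAlgebraic_natCast _, fun y hy => ?_⟩
    have h7 : minpoly ℚ (q : X.C) = Polynomial.X - Polynomial.C (q : ℚ) := by
      have := minpoly.eq_X_sub_C X.C (q : ℚ)
      rw [map_natCast] at this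
      exact this
    rw [h7] at hy
    simp only [map_sub, aeval_X, aeval_C, sub_eq_zero] at hy
    rw [hy]
    simp
  have hU1 : W.U 1 := (hWU 1).2 ⟨0, IsWeilNumber.one _⟩
  have hUq : W.U (q : X.C) := (hWU _).2 ⟨2, hqW⟩
  have hwq : W.w (q : X.C) = 2 := by
    have := hWw 2 _ hqW
    rw [this]; norm_num
  have hwμ : W.w X.F.μ / 2 = 2 := by
    rw [X.M.mult, (Wt.w_pow W hU1 hUq 2).2, hwq]; norm_num
  have hιμ : ∀ ι : X.E →ₐ[ℚ] X.C, (X.Wι ι).w X.F.μ / 2 = 1 := by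
    intro ι
    rw [X.M.mult, (X.good_ι ι).w_pow]
    norm_num
  set m : ℚ := finrank ℚ X.E / 2 with hm
  have hm0 : (m : X.C) ≠ 0 := by
    have h1 : (0 : ℚ) < finrank ℚ X.E := by
      exact_mod_cast Module.finrank_pos
    have h2 : m ≠ 0 := by rw [hm]; positivity
    exact_mod_cast h2
  have hcard : (Fintype.card (X.E →ₐ[ℚ] X.C) : ℚ) = 2 * m := by
    rw [AlgHom.card, hm]; ring
  -- the sum for `H²`
  have hS2 : ∑ ι : X.E →ₐ[ℚ] X.C, X.F.S2 (X.Wι ι) = (m : X.C) • X.F.S2 W := by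
    simp only [Cohomology.Auto.S2, Finset.sum_sub_distrib, hιμ]
    rw [fop_mean hWw hq X.two_le, Finset.sum_const, Finset.card_univ, smul_sub, hwμ,
      ← Nat.cast_smul_eq_nsmul X.C, smul_smul, smul_smul]
    congr 2
    have h3 := congrArg (fun x : ℚ => (x : X.C)) hcard
    simp only [Rat.cast_natCast] at h3
    rw [h3]
    push_cast
    ring
  have hsum : ∑ ι : X.E →ₐ[ℚ] X.C, X.F.T (X.Wι ι) i (i / 2) = (m : X.C) • X.F.T W i i := by
    simp only [T_eq, Finset.sum_sub_distrib]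
    rw [fop_mean hWw hq hi, ← map_sum, hS2, map_smul, Finset.sum_const, Finset.card_univ,
      smul_sub, smul_sub, ← Nat.cast_smul_eq_nsmul X.C, smul_smul, smul_smul]
    congr 3
    have h3 := congrArg (fun x : ℚ => (x : X.C)) hcard
    simp only [Rat.cast_natCast] at h3
    rw [h3]
    push_cast
    ring
  have hnil : IsNilpotent (∑ ι : X.E →ₐ[ℚ] X.C, X.F.T (X.Wι ι) i (i / 2)) := by
    refine Commute.isNilpotent_sum (fun ι _ => X.nil_ι h2 hall ι hi) fun ι κ _ _ => ?_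
    exact T_commT ((X.good_ι ι).root 2 X.two_le) ((X.good_ι κ).root 2 X.two_le)
      ((X.good_ι ι).root i hi) _ _
  have hfin : X.F.T W i i = (m : X.C)⁻¹ • ∑ ι : X.E →ₐ[ℚ] X.C, X.F.T (X.Wι ι) i (i / 2) := by
    rw [hsum, smul_smul, inv_mul_cancel₀ hm0, one_smul]
  rw [hfin]
  exact hnil.smul _

end

section

variable {q : ℕ} (X : HyodoKato q)

/-- **The `p`-adic weight-monodromy conjecture for projective hyperkähler varieties.** -/
theorem pure_all (hq : 1 < q) (hr2 : RationalPoly (X.P 2))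
    (hall : RationalPoly (∏ i ∈ Finset.range (X.d + 1), X.P i)) {i : ℕ} (hi : i ≤ X.d) :
    X.IsPure i := by
  obtain ⟨W, hWU, hWw⟩ := t_wtb X.C q hq
  have hq0 : (q : X.C) ≠ 0 := X.q_ne
  have hqW : IsWeilNumber q 2 (q : X.C) := by
    refine ⟨isAlgebraic_natCast _, fun y hy => ?_⟩
    have h7 : minpoly ℚ (q : X.C) = Polynomial.X - Polynomial.C (q : ℚ) := by
      have := minpoly.eq_X_sub_C X.C (q : ℚ)
      rw [map_natCast] at this
      exact this
    rw [h7] at hy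
    simp only [map_sub, aeval_X, aeval_C, sub_eq_zero] at hy
    rw [hy]
    simp
  have hU1 : W.U 1 := (hWU 1).2 ⟨0, IsWeilNumber.one _⟩
  have hUq : W.U (q : X.C) := (hWU _).2 ⟨2, hqW⟩
  have hwq : W.w (q : X.C) = 2 := by
    have := hWw 2 _ hqW
    rw [this]; norm_num
  have hwμ : W.w X.F.μ / 2 = 2 := by
    rw [X.M.mult, (Wt.w_pow W hU1 hUq 2).2, hwq]; norm_num
  have hwinv : W.k (q : X.C)⁻¹ = -2 := by
    have h1 := W.w_mul _ _ hUq (W.inv _ hUq)
    rw [mul_inv_cancel₀ hq0, Wt.w_one W hU1, hwq] at h1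
    have h2 : W.w (q : X.C)⁻¹ = -2 := by linarith
    rw [Wt.k, h2]; norm_num
  -- the grading of `H²`
  set D := X.F.S2 W with hD
  have hDskew : Skew X.D.q D := skew_S2 (U_all hWU X.two_le)
  have hDfop : D = fop (en (X.F.φ 2)) (fun e => ((W.w e - (2 : ℤ) : ℚ) : X.C)) := by
    have : (fun e => ((W.w e - (2 : ℤ) : ℚ) : X.C)) = fun e => W.k e - ((2 : ℚ) : X.C) := by
      ext e; rw [Rat.cast_sub]; rfl
    rw [this, fop_sub, fop_const, hD, Cohomology.Auto.S2, hwμ]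
  have hN2 : X.M.N 2 ∈ (adE (X.F.φ 2)).maxGenEigenspace (q : X.C)⁻¹ := by
    rw [Module.End.mem_maxGenEigenspace]
    refine ⟨1, ?_⟩
    rw [pow_one, LinearMap.sub_apply, adE_tw _ hq0 (X.M.twist 2 X.two_le)]
    exact sub_self _
  have hDN : D * X.M.N 2 - X.M.N 2 * D = -(2 : X.C) • X.M.N 2 := by
    have h1 := comm_fop W (U_all hWU X.two_le) hN2
    rw [hwinv] at h1
    rw [← h1, hD, Cohomology.Auto.S2, sub_mul, mul_sub, smul_mul_assoc, mul_smul_comm, one_mul,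
      mul_one]
    abel
  have hDtop : (⨆ j : ℤ, D.eigenspace (j : X.C)) = ⊤ := by
    rw [hDfop]
    refine (t_fope X.C (X.D.H 2) _ _).2.2 fun e he => ?_
    obtain ⟨w, hw⟩ := X.weights' X.two_le e he
    refine ⟨w - 2, ?_⟩
    rw [hWw w e hw]
    push_cast
    ring
  have hW2 : ∀ j : ℤ, D.eigenspace (j : X.C) = WS q (en (X.F.φ 2)) (2 + j) := fun j => by
    rw [hDfop]
    exact WS_eq hq (X.weights' X.two_le) hWw 2 j
  have hfrm := t_frm X.C (X.D.H 2) _ hq 2 _ (X.M.N 2) (X.weights' X.two_le)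
    (X.M.twist 2 X.two_le) X.M.mw_two
  have hbij : ∀ j : ℕ, Set.BijOn (⇑(X.M.N 2 ^ j)) (D.eigenspace (j : X.C) : Set (X.D.H 2))
      (D.eigenspace (-(j : X.C)) : Set (X.D.H 2)) := by
    intro j
    have h1 := hW2 (j : ℤ)
    have h2 := hW2 (-(j : ℤ))
    rw [Int.cast_natCast] at h1
    rw [Int.cast_neg, Int.cast_natCast, ← sub_eq_add_neg] at h2
    rw [h1, h2]
    exact hfrm j
  obtain ⟨Y, hY, hDY, hYN⟩ := t_sl2a X.C (X.D.H 2) X.D.q X.D.symm X.D.nondeg D (X.M.N 2)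
    hDskew X.M.skew hDN hDtop hbij
  -- the representation on `H^i`
  have b1 : X.D.ρ i D * X.D.ρ i Y - X.D.ρ i Y * X.D.ρ i D = (2 : X.C) • X.D.ρ i Y := by
    rw [← X.D.bracket i D Y hDskew hY, hDY, map_smul]
  have b2 : X.D.ρ i D * X.M.N i - X.M.N i * X.D.ρ i D = -(2 : X.C) • X.M.N i := by
    rw [X.N_eq hi, ← X.D.bracket i D _ hDskew X.M.skew, hDN, map_smul]
  have b3 : X.D.ρ i Y * X.M.N i - X.M.N i * X.D.ρ i Y = X.D.ρ i D := by
    rw [X.N_eq hi, ← X.D.bracket i Y _ hY X.M.skew, hYN]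
  obtain ⟨-, hB⟩ := t_sl2b X.C (X.D.H i) _ _ _ b1 b2 b3
  have hT := wt_nil hWU hWw hq hr2 hall hi
  have hTc : Commute (X.D.ρ i D) (X.F.T W i i) :=
    T_comm (U_all hWU X.two_le) (U_all hWU hi) _ hDskew
  have hsum : X.D.ρ i D + X.F.T W i i =
      fop (en (X.F.φ i)) (fun e => ((W.w e - ((i : ℤ) : ℚ) : ℚ) : X.C)) := by
    rw [Cohomology.Auto.T, hD]
    simp only [Int.cast_natCast]
    abel
  have hWi : ∀ j : ℤ, (X.D.ρ i D).maxGenEigenspace (j : X.C) =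
      WS q (en (X.F.φ i)) ((i : ℤ) + j) := fun j => by
    rw [← t_wsp X.C (X.D.H i) _ _ hTc hT, hsum, (t_fope X.C (X.D.H i) _ _).2.1]
    exact WS_eq hq (X.weights' hi) hWw (i : ℤ) j
  refine t_tom X.C (X.D.H i) _ hq i _ (X.M.N i) (X.weights' hi) (X.M.twist i hi) fun j => ?_
  have h1 := hWi (j : ℤ)
  have h2 := hWi (-(j : ℤ))
  rw [Int.cast_natCast] at h1
  rw [Int.cast_neg, Int.cast_natCast, ← sub_eq_add_neg] at h2
  rw [← h1, ← h2]
  exact hB j

end

end Pool.Agent.V7H12.PW
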