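import Pool.Agent.V7H12.PW.Emb

/-!
# Moments of the slopes, and their invariance under a change of the embedding
-/

set_option autoImplicit false

namespace Pool.Agent.V7H12.PW

open Module Module.End Polynomial
open Pool.Agent.N184.HK Pool.Agent.Y143
open scoped Classical

section tr

variable {K V : Type} [Field K] [CharZero K] [AddCommGroup V] [Module K V] [FiniteDimensional K V]

/-- The trace of a skew operator is zero. -/
lemma tr_skew {B : LinearMap.BilinForm K V} (hB : B.Nondegenerate) {A : Module.End K V}
    (hA : Skew B A) : LinearMap.trace K V A = 0 := by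
  set e := LinearMap.BilinForm.toDual B hB with he
  have h1 : e.conj A = (-1 : K) • (Module.Dual.transpose (R := K) A) := by
    ext f x
    rw [LinearEquiv.conj_apply]
    obtain ⟨y, rfl⟩ := e.surjective f
    simp only [LinearMap.comp_apply, LinearEquiv.coe_coe, LinearEquiv.symm_apply_apply,
      LinearMap.smul_apply, Module.Dual.transpose_apply, smul_eq_mul]
    have h2 : e (A y) x = B (A y) x := LinearMap.BilinForm.toDual_def hB
    have h3 : e y (A x) = B y (A x) := LinearMap.BilinForm.toDual_def hB
    rw [h2, h3, neg_one_mul]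
    exact eq_neg_of_add_eq_zero_left (hA y x)
  have h2 := LinearMap.trace_conj' A e
  rw [h1, map_smul, LinearMap.trace_transpose', smul_eq_mul, neg_one_mul] at h2
  have h3 : (2 : K) * LinearMap.trace K V A = 0 := by
    rw [two_mul]
    nth_rewrite 1 [← h2]
    exact neg_add_cancel _
  exact (mul_eq_zero.1 h3).resolve_left two_ne_zero

/-- The first moment of the weights. -/
lemma first_mom [IsAlgClosed K] {B : LinearMap.BilinForm K V} {φ : V ≃ₗ[K] V} {μ : K}
    (hB : Scales B φ μ) (W : Wt K) (hV : ∀ e ∈ (en φ).charpoly.roots, W.U e) :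
    ((en φ).charpoly.roots.map W.w).sum =
      W.w μ / 2 * Multiset.card (en φ).charpoly.roots := by
  have h := tr_skew hB.1 (skew_fop hB.2 W hV)
  have hcard : finrank K V = Multiset.card (en φ).charpoly.roots := by
    rw [← (IsAlgClosed.splits _).natDegree_eq_card_roots, LinearMap.charpoly_natDegree]
  rw [map_sub, tr_fop, map_smul, LinearMap.trace_one, hcard, smul_eq_mul] at h
  have h2 : ((en φ).charpoly.roots.map W.k).sum =
      ((((en φ).charpoly.roots.map W.w).sum : ℚ) : K) := cast_sum_map _ _
  rw [h2, sub_eq_zero] at h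
  have h3 : ((((en φ).charpoly.roots.map W.w).sum : ℚ) : K) =
      ((W.w μ / 2 * Multiset.card (en φ).charpoly.roots : ℚ) : K) := by
    rw [h, Rat.cast_mul, Rat.cast_natCast]
  exact Rat.cast_injective h3

end tr

lemma sum_sq {K : Type} (m : Multiset K) (w : K → ℚ) (κ : ℚ)
    (h : (m.map w).sum = κ * Multiset.card m) :
    (m.map (fun e => (w e - κ) * (w e - κ))).sum =
      (m.map (fun e => w e * w e)).sum - κ * κ * Multiset.card m := by
  have h1 : ∀ m : Multiset K, (m.map (fun e => (w e - κ) * (w e - κ))).sum =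
      (m.map (fun e => w e * w e)).sum - 2 * κ * (m.map w).sum + κ * κ * Multiset.card m := by
    intro m
    induction m using Multiset.induction_on with
    | empty => simp
    | cons a s ih =>
      rw [Multiset.map_cons, Multiset.sum_cons, Multiset.map_cons, Multiset.sum_cons,
        Multiset.map_cons, Multiset.sum_cons, Multiset.card_cons, ih]
      push_cast
      ring
  rw [h1, h]
  ring

section

variable {q : ℕ} (X : HyodoKato q)

/-- The condition on a weight used below: it is defined on the Frobenius eigenvalues and `q` has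
weight one. -/
structure Good (W : Wt X.C) : Prop where
  one : W.U 1
  unit : W.U (q : X.C)
  root : ∀ i ≤ X.d, ∀ e ∈ (X.P i).roots, W.U e
  q_eq : W.w (q : X.C) = 1

lemma HyodoKato.good_W : Good X X.W where
  one := one_ne_zero
  unit := X.q_ne
  root i _ := X.root_U i
  q_eq := X.w_q

variable {X} {W : Wt X.C} (hW : Good X W)

include hW

lemma Good.w_pow (k : ℕ) : W.w ((q : X.C) ^ k) = k := by
  rw [(Wt.w_pow W hW.one hW.unit k).2, hW.q_eq, mul_one]

lemma Good.mom_eq {i : ℕ} (hi : i ≤ X.d) : mom X.F W i (i / 2) =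
    ((X.P i).roots.map (fun e => W.w e * W.w e)).sum -
      (i / 2) * (i / 2) * Multiset.card (X.P i).roots := by
  obtain ⟨B, hB⟩ := X.pairing i hi
  have h := first_mom hB W (hW.root i hi)
  rw [hW.w_pow] at h
  exact sum_sq _ _ _ h

/-- The sum of the second moments. -/
lemma Good.total : ∑ i ∈ Finset.range (X.d + 1), mom X.F W i (i / 2) =
    ((∏ i ∈ Finset.range (X.d + 1), X.P i).roots.map (fun e => W.w e * W.w e)).sum -
      ∑ i ∈ Finset.range (X.d + 1), ((i : ℚ) / 2) * (i / 2) * Multiset.card (X.P i).roots := by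
  rw [Finset.sum_congr rfl fun i hi =>
    hW.mom_eq (Nat.lt_succ_iff.1 (Finset.mem_range.1 hi)), Finset.sum_sub_distrib]
  congr 1
  have h0 : ∀ s : Finset ℕ, ((∏ i ∈ s, X.P i).roots.map (fun e => W.w e * W.w e)).sum =
      ∑ i ∈ s, ((X.P i).roots.map (fun e => W.w e * W.w e)).sum := by
    intro s
    induction s using Finset.induction_on with
    | empty => simp
    | insert a s ha ih =>
      rw [Finset.prod_insert ha, Finset.sum_insert ha, Polynomial.roots_mul, Multiset.map_add,
        Multiset.sum_add, ih]
      refine mul_ne_zero (LinearMap.charpoly_monic _).ne_zero ?_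
      exact Finset.prod_ne_zero_iff.2 fun i _ => (LinearMap.charpoly_monic _).ne_zero
  exact (h0 _).symm

lemma Good.mom_two : mom X.F W 2 (W.w X.F.μ / 2) =
    ((X.P 2).roots.map (fun e => W.w e * W.w e)).sum - Multiset.card (X.P 2).roots := by
  have h := hW.mom_eq X.two_le
  have h1 : W.w X.F.μ / 2 = ((2 : ℕ) : ℚ) / 2 := by
    rw [X.M.mult, hW.w_pow]
  rw [h1, h]
  norm_num

end

section

variable {q : ℕ} (X : HyodoKato q)

/-- The slope operators for two good weights with the same multisets of weights. -/
lemma nil_of_same {W : Wt X.C} (hW : Good X W)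
    (h2 : (X.P 2).roots.map W.w = (X.P 2).roots.map X.W.w)
    (hall : (∏ i ∈ Finset.range (X.d + 1), X.P i).roots.map W.w =
      (∏ i ∈ Finset.range (X.d + 1), X.P i).roots.map X.W.w) {i : ℕ} (hi : i ≤ X.d) :
    IsNilpotent (X.F.T W i (i / 2)) := by
  have hsq : ∀ (m : Multiset X.C) (w : X.C → ℚ), (m.map (fun e => w e * w e)).sum =
      ((m.map w).map (fun x => x * x)).sum := by
    intro m w
    rw [Multiset.map_map]
    rfl
  have h1 := (total_mom (F := X.F) (W := X.W) X.two_le (fun i _ => X.root_U i)
    (fun i => (i : ℚ) / 2)).2 fun i hi => X.nil hi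
  refine (total_mom (F := X.F) (W := W) X.two_le (fun i hi => hW.root i hi)
    (fun i => (i : ℚ) / 2)).1 ?_ i hi
  rw [hW.total, hW.mom_two, hsq, hsq, h2, hall, ← hsq, ← hsq, ← X.good_W.total,
    ← X.good_W.mom_two, h1]

end

end Pool.Agent.V7H12.PW
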